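import Pool.Agent.Helper86.AC.Bd
import Pool.Agent.Helper60.AC.Meas

/-!
# AC-V: the moment over the frames and the moment over the coordinates
-/

open MeasureTheory Real Set Filter Topology

set_option autoImplicit false

namespace Pool.Agent.Helper86.AC

open Pool.Agent.Helper22.AE
open Pool.Agent.Helper92.GC (dt tp Tq uu tt arc dd)
open Pool.Agent.Helper75.TW (m20 m20_congr)
open Pool.Agent.Helper60.LT (Fr Tf xf yf df vf fr fr_coord fr_meas int_fr sl Hom Cv)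
open Pool.Agent.Helper60.QL (R3 OM UB)
open Pool.Agent.Helper48.QL (shr df_meas shr_meas shear_int OM_meas lint3 coord_bd UB_bd shr_neg)
open Pool.Agent.Helper3.AC

theorem hf_eq {c₁ B : ℝ} {h : ℝ × ℝ → ℝ} (hh : Hom c₁ B h) (t₀ : ℝ) (f : Fr) {k : ℤ × ℤ} (hk : 0 < k.1) :
    h (vf f k) = uu 0 k * hf h (shr t₀ f) (tt 0 k - t₀) := by
  have hk' : (0 : ℝ) < (k.1 : ℝ) := by exact_mod_cast hk
  have eu : uu 0 k = (k.1 : ℝ) := by simp [uu]
  have et : tt 0 k = (k.2 : ℝ) / (k.1 : ℝ) := by simp [tt, uu]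
  rw [eu, et]
  show h _ = (k.1 : ℝ) * h _
  rw [← hh.hom _ _ hk']
  congr 1
  simp only [vf, shr]
  refine Prod.ext ?_ ?_
  · dsimp only
    field_simp
    ring
  · dsimp only
    field_simp
    ring

theorem IH_eq {c₁ B₀ B X : ℝ} {h : ℝ × ℝ → ℝ} (hh : Hom c₁ B₀ h) (t₀ : ℝ) {S : Finset (ℤ × ℤ)} (hS : ∀ k ∈ S, 0 < k.1) :
    IH h B X S = ∫⁻ f in UP B X, ENNReal.ofReal (mf h t₀ S (shr t₀ f)) := by
  unfold IH mf
  refine lintegral_congr fun f => ?_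
  congr 1
  refine m20_congr fun k hk => ?_
  rw [hf_eq hh t₀ f (hS k hk)]

/-- the upper bound for one direction -/
theorem up_dir {B M q β κ : ℝ} (hP : Pr M q β κ) (hB : 1 ≤ B) {X : ℝ} (hX : 0 < X) (θ : ℝ) {Φ : Fr → ENNReal} (hΦ : Measurable Φ) :
    ∫⁻ a in Ioi (0 : ℝ), ∫⁻ b, ∫⁻ c in Iio (b ^ 2 / a), ENNReal.ofReal (jA q κ (a, b, c)) * (UP B X).indicator Φ (gA θ q β κ (a, b, c)) ≤
      ENNReal.ofReal (131072 * M ^ 4 * B ^ 22 * X) * ∫⁻ A in OM (65536 * M ^ 3 * B ^ 22) X, Φ (gA θ q β κ A) := by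
  have hB0 : 0 < B := by linarith
  have hm : Measurable (fun A : R3 => Φ (gA θ q β κ A)) := hΦ.comp (gA_meas θ q β κ)
  have hOm : Measurable ((OM (65536 * M ^ 3 * B ^ 22) X).indicator fun A => Φ (gA θ q β κ A)) := hm.indicator (OM_meas _ _)
  have m1 := hP.one
  have hM0 : 0 < M := by linarith
  have hq := hP.q0
  have hκ := hP.κ0
  rw [← lintegral_indicator (OM_meas _ _), lint3 hOm, ← lintegral_const_mul' _ _ ENNReal.ofReal_ne_top,
    ← lintegral_indicator measurableSet_Ioi]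
  refine lintegral_mono fun a => ?_
  by_cases ha : 0 < a
  swap
  · rw [indicator_of_notMem (show a ∉ Ioi (0 : ℝ) from ha)]
    exact zero_le
  rw [indicator_of_mem (show a ∈ Ioi (0 : ℝ) from ha), ← lintegral_const_mul' _ _ ENNReal.ofReal_ne_top]
  refine lintegral_mono fun b => ?_
  rw [← lintegral_const_mul' _ _ ENNReal.ofReal_ne_top, ← lintegral_indicator measurableSet_Iio]
  refine lintegral_mono fun c => ?_
  by_cases hc : c < b ^ 2 / a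
  swap
  · rw [indicator_of_notMem (show c ∉ Iio (b ^ 2 / a) from hc)]
    exact zero_le
  rw [indicator_of_mem (show c ∈ Iio (b ^ 2 / a) from hc)]
  obtain ⟨h1, h2, h3, h4, hy, hT⟩ := gA_coord (θ := θ) (β := β) hq hκ ha hc
  by_cases hU : gA θ q β κ (a, b, c) ∈ UP B X
  swap
  · rw [indicator_of_notMem hU, mul_zero]
    exact zero_le
  rw [indicator_of_mem hU]
  obtain ⟨g1, g2, g3, g4, -, -⟩ := UB_bd hB0.le hX (UP_UB hB0 hU)
  rw [h1, h3] at g4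
  rw [h1, h2, h3] at g3
  rw [h1] at g2
  obtain ⟨k1, -, -, -, k5⟩ := coord_bd hT hX hB g2 g3 g4
  rw [abs_of_pos hy] at k5
  have hsq := yA_sq hκ ha hc.le
  have eT : TA q κ (a, b, c) = 2 * a / (q * yA κ (a, b, c) ^ 2) := rfl
  have ex : xA β κ (a, b, c) = -(b / a) + β * yA κ (a, b, c) := rfl
  have hmem : (a, b, c) ∈ OM (65536 * M ^ 3 * B ^ 22) X := by
    refine OM_of' hP hT hX hB g2 g3 g4 ?_ ?_ ?_
    · rw [eT]
      field_simp
    · rw [ex]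
      field_simp
      ring
    · rw [hsq]
      field_simp
      ring
  rw [indicator_of_mem hmem]
  refine mul_le_mul_left (ENNReal.ofReal_le_ofReal ?_) _
  unfold jA
  rw [div_le_iff₀ (by positivity)]
  have k6 : 1 ≤ (4 * B ^ 3 * yA κ (a, b, c)) ^ 7 := one_le_pow₀ k5
  have k7 : 1 ≤ (M * q) ^ 3 := one_le_pow₀ hP.q2
  have k8 := hP.κ2
  calc 4 * TA q κ (a, b, c) = 4 * TA q κ (a, b, c) * 1 * 1 * 1 := by ring
    _ ≤ 4 * (2 * B * X) * (4 * B ^ 3 * yA κ (a, b, c)) ^ 7 * (M * q) ^ 3 * (M * κ) := by gcongr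
    _ = 131072 * M ^ 4 * B ^ 22 * X * (q ^ 3 * κ * yA κ (a, b, c) ^ 7) := by ring

/-- the frames of the region -/
theorem gA_UP {B X M q β κ a b c θ : ℝ} (hP : Pr M q β κ) (hB : 1 ≤ B) (hX : 0 < X) (h : (a, b, c) ∈ OM B X) :
    gA θ q β κ (a, b, c) ∈ UP (10 * M ^ 5 * B ^ 12) X := by
  obtain ⟨ha, hc, h1, h2, h3, h4, h5⟩ := OM_bd' hP hB hX h
  obtain ⟨e1, e2, e3, e4, hy, hT⟩ := gA_coord (θ := θ) (β := β) hP.q0 hP.κ0 ha hc
  have hB0 : 0 < B := by linarith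
  have m1 := hP.one
  have hM0 : 0 < M := by linarith
  have hs := abs_sin_le_one θ
  have hcs := abs_cos_le_one θ
  obtain ⟨T, eT⟩ : ∃ T, T = TA q κ (a, b, c) := ⟨_, rfl⟩
  obtain ⟨y, ey⟩ : ∃ y, y = yA κ (a, b, c) := ⟨_, rfl⟩
  obtain ⟨x, ex⟩ : ∃ x, x = xA β κ (a, b, c) := ⟨_, rfl⟩
  have eg : gA θ q β κ (a, b, c) = fr θ y T x := by
    rw [eT, ey, ex]
    rfl
  rw [← eT] at h1 h2 hT
  rw [← ex] at h3
  rw [← ey] at h4 h5 hy
  have hd : df (fr θ y T x) = T ^ 2 * y := (fr_coord (θ := θ) (y := y) (T := T) (x := x) hT).2.2.2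
  rw [eg]
  have pw : ∀ i : ℕ, i ≤ 12 → B ^ i ≤ B ^ 12 := fun i hi => pow_le_pow_right₀ hB hi
  have pm : ∀ i : ℕ, i ≤ 5 → M ^ i ≤ M ^ 5 := fun i hi => pow_le_pow_right₀ m1 hi
  have k1 : 2 * M ^ 2 * B ^ 4 * X ≤ 10 * M ^ 5 * B ^ 12 * X := by
    have := pw 4 (by norm_num)
    have := pm 2 (by norm_num)
    gcongr
    norm_num
  have k2 : 2 * M ^ 2 * B ^ 4 * X * (5 * M ^ 2 * B ^ 2) ≤ 10 * M ^ 5 * B ^ 12 * X := by
    have e : 2 * M ^ 2 * B ^ 4 * X * (5 * M ^ 2 * B ^ 2) = 10 * M ^ 4 * B ^ 6 * X := by ring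
    rw [e]
    have := pw 6 (by norm_num)
    have := pm 4 (by norm_num)
    gcongr
  have k3 : ∀ p r : ℝ, |p| ≤ 1 → |r| ≤ 1 → |T * (x * p + y * r)| ≤ 10 * M ^ 5 * B ^ 12 * X := by
    intro p r hp hr
    rw [abs_mul, abs_of_pos hT]
    have h6 : |x * p + y * r| ≤ 5 * M ^ 2 * B ^ 2 := by
      calc |x * p + y * r| ≤ |x * p| + |y * r| := abs_add_le _ _
        _ = |x| * |p| + y * |r| := by rw [abs_mul, abs_mul, abs_of_pos hy]
        _ ≤ 3 * M ^ 2 * B ^ 2 * 1 + 2 * M * B ^ 2 * 1 := by gcongr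
        _ = 3 * M ^ 2 * B ^ 2 + 2 * M ^ 1 * B ^ 2 := by ring
        _ ≤ 3 * M ^ 2 * B ^ 2 + 2 * M ^ 2 * B ^ 2 := by
          have := pow_le_pow_right₀ m1 (show 1 ≤ 2 by norm_num)
          gcongr
        _ = 5 * M ^ 2 * B ^ 2 := by ring
    calc T * |x * p + y * r| ≤ 2 * M ^ 2 * B ^ 4 * X * (5 * M ^ 2 * B ^ 2) := by gcongr
      _ ≤ _ := k2
  refine ⟨?_, ?_, ?_, ?_, ?_⟩
  · show |T * cos θ| ≤ _
    rw [abs_mul, abs_of_pos hT]
    calc T * |cos θ| ≤ 2 * M ^ 2 * B ^ 4 * X * 1 := by gcongr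
      _ ≤ _ := by linarith
  · show |T * sin θ| ≤ _
    rw [abs_mul, abs_of_pos hT]
    calc T * |sin θ| ≤ 2 * M ^ 2 * B ^ 4 * X * 1 := by gcongr
      _ ≤ _ := by linarith
  · show |T * (x * cos θ - y * sin θ)| ≤ _
    have := k3 (cos θ) (-sin θ) hcs (by rw [abs_neg]; exact hs)
    have e : x * cos θ - y * sin θ = x * cos θ + y * -sin θ := by ring
    rw [e]
    exact this
  · show |T * (x * sin θ + y * cos θ)| ≤ _
    exact k3 (sin θ) (cos θ) hs hcs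
  · rw [hd]
    calc X ^ 2 ≤ (2 * M ^ 2 * B ^ 5 * T) ^ 2 := pow_le_pow_left₀ hX.le h2 2
      _ = 4 * M ^ 4 * B ^ 10 * T ^ 2 * 1 := by ring
      _ ≤ 4 * M ^ 4 * B ^ 10 * T ^ 2 * (M * B ^ 2 * y) := by gcongr
      _ = 4 * (M ^ 5 * B ^ 12 * (T ^ 2 * y)) := by ring
      _ ≤ 10 * (M ^ 5 * B ^ 12 * (T ^ 2 * y)) := by
        have : 0 ≤ M ^ 5 * B ^ 12 * (T ^ 2 * y) := by positivity
        linarith
      _ = 10 * M ^ 5 * B ^ 12 * (T ^ 2 * y) := by ring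

/-- the lower bound for one direction -/
theorem lo_dir {B M q β κ : ℝ} (hP : Pr M q β κ) (hB : 1 ≤ B) {X : ℝ} (hX : 0 < X) (θ : ℝ) {Φ : Fr → ENNReal} (hΦ : Measurable Φ) :
    ENNReal.ofReal X * ∫⁻ A in OM B X, Φ (gA θ q β κ A) ≤ ENNReal.ofReal (64 * M ^ 13 * B ^ 19) *
      ∫⁻ a in Ioi (0 : ℝ), ∫⁻ b, ∫⁻ c in Iio (b ^ 2 / a), ENNReal.ofReal (jA q κ (a, b, c)) *
        (UP (10 * M ^ 5 * B ^ 12) X).indicator Φ (gA θ q β κ (a, b, c)) := by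
  have hB0 : 0 < B := by linarith
  have hm : Measurable (fun A : R3 => Φ (gA θ q β κ A)) := hΦ.comp (gA_meas θ q β κ)
  have hOm : Measurable ((OM B X).indicator fun A => Φ (gA θ q β κ A)) := hm.indicator (OM_meas _ _)
  have m1 := hP.one
  have hM0 : 0 < M := by linarith
  have hq := hP.q0
  have hκ := hP.κ0
  rw [← lintegral_indicator (OM_meas _ _), lint3 hOm, ← lintegral_const_mul' _ _ ENNReal.ofReal_ne_top,
    ← lintegral_const_mul' _ _ ENNReal.ofReal_ne_top, ← lintegral_indicator measurableSet_Ioi]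
  refine lintegral_mono fun a => ?_
  simp only
  by_cases ha : 0 < a
  swap
  · have e0 : ∀ b c : ℝ, (OM B X).indicator (fun A => Φ (gA θ q β κ A)) (a, b, c) = 0 := by
      intro b c
      rw [indicator_of_notMem]
      intro h
      exact ha (OM_bd' hP hB hX h).1
    simp only [e0, lintegral_zero, mul_zero]
    exact zero_le
  rw [indicator_of_mem (show a ∈ Ioi (0 : ℝ) from ha), ← lintegral_const_mul' _ _ ENNReal.ofReal_ne_top,
    ← lintegral_const_mul' _ _ ENNReal.ofReal_ne_top]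
  refine lintegral_mono fun b => ?_
  simp only
  rw [← lintegral_const_mul' _ _ ENNReal.ofReal_ne_top, ← lintegral_const_mul' _ _ ENNReal.ofReal_ne_top, ← lintegral_indicator measurableSet_Iio]
  refine lintegral_mono fun c => ?_
  simp only
  by_cases hO : (a, b, c) ∈ OM B X
  swap
  · rw [indicator_of_notMem hO, mul_zero]
    exact zero_le
  rw [indicator_of_mem hO]
  obtain ⟨-, hc, h1, h2, h3, h4, h5⟩ := OM_bd' hP hB hX hO
  obtain ⟨e1, e2, e3, e4, hy, hT⟩ := gA_coord (θ := θ) (β := β) hq hκ ha hc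
  have hj : 0 < jA q κ (a, b, c) := by
    unfold jA
    positivity
  rw [indicator_of_mem (show c ∈ Iio (b ^ 2 / a) from hc), indicator_of_mem (gA_UP hP hB hX hO),
    ← mul_assoc, ← ENNReal.ofReal_mul (by positivity)]
  refine mul_le_mul_left (ENNReal.ofReal_le_ofReal ?_) _
  have k1 : yA κ (a, b, c) ^ 7 ≤ (2 * M * B ^ 2) ^ 7 := pow_le_pow_left₀ hy.le h4 7
  have k2 : q ^ 3 ≤ M ^ 3 := pow_le_pow_left₀ hq.le hP.q1 3
  have k3 := hP.κ1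
  unfold jA
  rw [← mul_div_assoc, le_div_iff₀ (by positivity)]
  calc X * (q ^ 3 * κ * yA κ (a, b, c) ^ 7) ≤ 2 * M ^ 2 * B ^ 5 * TA q κ (a, b, c) * (M ^ 3 * M * (2 * M * B ^ 2) ^ 7) := by gcongr
    _ = 256 * M ^ 13 * B ^ 19 * TA q κ (a, b, c) := by ring
    _ = 64 * M ^ 13 * B ^ 19 * (4 * TA q κ (a, b, c)) := by ring

end Pool.Agent.Helper86.AC

namespace Pool.Agent.Helper3.AC

open Pool.Agent.Helper22.AE
open Pool.Agent.Helper92.GC (dt tp Tq uu tt arc dd)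
open Pool.Agent.Helper75.TW (m20)
open Pool.Agent.Helper60.LT (Fr Tf xf yf df vf fr sl Cv Hom)
open Pool.Agent.Helper60.QL (R3 OM)
open Pool.Agent.Helper48.QL (shr shr_meas shear_int shr_neg)
open Pool.Agent.Helper86.AC

theorem IH_up {c₁ B₀ B : ℝ} (hc : 0 < c₁) (hB₀ : 1 ≤ B₀) (hB : 1 ≤ B) : ∃ B' C : ℝ, B ≤ B' ∧ 1 ≤ C ∧
    ∀ h : ℝ × ℝ → ℝ, HA c₁ B₀ h → ∀ (X t₀ : ℝ) (S : Finset (ℤ × ℤ)), 0 < X → |t₀| ≤ 3 → (∀ k ∈ S, 0 < k.1) →
    IH h B X S ≤ ENNReal.ofReal (C * X) * ∫⁻ θ in Ioc (-π) π, ∫⁻ A in OM B' X, ENNReal.ofReal (qf h θ t₀ S A) := by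
  obtain ⟨M, hM, hPr⟩ := exists_Pr hc hB₀
  have hM0 : 0 < M := by linarith
  have hM3 : 1 ≤ M ^ 3 := one_le_pow₀ hM
  have hM4 : 1 ≤ M ^ 4 := one_le_pow₀ hM
  have hB4 : 1 ≤ 4 * B := by linarith
  have hB22 : 4 * B ≤ (4 * B) ^ 22 := le_self_pow₀ hB4 (by norm_num)
  have hpow : ∀ N m : ℝ, 1 ≤ N → 1 ≤ m → 4 * B ≤ N * m * (4 * B) ^ 22 := by
    intro N m hN hm
    calc 4 * B ≤ 1 * 1 * (4 * B) ^ 22 := by linarith
      _ ≤ N * m * (4 * B) ^ 22 := by gcongr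
  refine ⟨65536 * M ^ 3 * (4 * B) ^ 22, 131072 * M ^ 4 * (4 * B) ^ 22, ?_, ?_, fun h hh X t₀ S hX ht hS => ?_⟩
  · have := hpow 65536 (M ^ 3) (by norm_num) hM3
    linarith
  · have := hpow 131072 (M ^ 4) (by norm_num) hM4
    linarith
  rw [IH_eq hh.hom t₀ hS]
  have hmf : Measurable (fun f : Fr => ENNReal.ofReal (mf h t₀ S f)) := (mf_meas hh.hom t₀ S).ennreal_ofReal
  have hind : Measurable ((UP (4 * B) X).indicator fun f => ENNReal.ofReal (mf h t₀ S f)) := hmf.indicator (UP_meas _ _)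
  have hB40 : 0 < 4 * B := by linarith
  calc ∫⁻ f in UP B X, ENNReal.ofReal (mf h t₀ S (shr t₀ f))
      ≤ ∫⁻ f, (UP (4 * B) X).indicator (fun f => ENNReal.ofReal (mf h t₀ S f)) (shr t₀ f) := by
        rw [← lintegral_indicator (UP_meas _ _)]
        refine lintegral_mono fun f => ?_
        by_cases hf : f ∈ UP B X
        · rw [indicator_of_mem hf, indicator_of_mem (shr_UP hX.le (by linarith) ht hf)]
        · rw [indicator_of_notMem hf]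
          exact zero_le
    _ = ∫⁻ f, (UP (4 * B) X).indicator (fun f => ENNReal.ofReal (mf h t₀ S f)) f := shear_int hind t₀
    _ = ∫⁻ θ in Ioc (-π) π, ∫⁻ a in Ioi (0 : ℝ), ∫⁻ b, ∫⁻ c in Iio (b ^ 2 / a), ENNReal.ofReal (jA (p2 h θ) (ka h θ) (a, b, c)) *
          (UP (4 * B) X).indicator (fun f => ENNReal.ofReal (mf h t₀ S f)) (gA θ (p2 h θ) (be h θ) (ka h θ) (a, b, c)) :=
        int_gA hind (fun f hf => indicator_of_notMem (fun hU => absurd (UP_pos hB40 hX hU) (not_lt.2 hf)) _) (p2 h) (be h) (ka h)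
          (fun θ => (hPr h hh θ).q0) (fun θ => (hPr h hh θ).κ0)
    _ ≤ ∫⁻ θ in Ioc (-π) π, ENNReal.ofReal (131072 * M ^ 4 * (4 * B) ^ 22 * X) *
          ∫⁻ A in OM (65536 * M ^ 3 * (4 * B) ^ 22) X, ENNReal.ofReal (qf h θ t₀ S A) :=
        lintegral_mono fun θ => up_dir (hPr h hh θ) hB4 hX θ hmf
    _ = _ := lintegral_const_mul' _ _ ENNReal.ofReal_ne_top

theorem IH_lo {c₁ B₀ B : ℝ} (hc : 0 < c₁) (hB₀ : 1 ≤ B₀) (hB : 1 ≤ B) : ∃ B' C : ℝ, B ≤ B' ∧ 1 ≤ C ∧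
    ∀ h : ℝ × ℝ → ℝ, HA c₁ B₀ h → ∀ (X t₀ : ℝ) (S : Finset (ℤ × ℤ)), 0 < X → |t₀| ≤ 3 → (∀ k ∈ S, 0 < k.1) →
    ENNReal.ofReal X * ∫⁻ θ in Ioc (-π) π, ∫⁻ A in OM B X, ENNReal.ofReal (qf h θ t₀ S A) ≤ ENNReal.ofReal C * IH h B' X S := by
  obtain ⟨M, hM, hPr⟩ := exists_Pr hc hB₀
  have hM0 : 0 < M := by linarith
  have hM5 : 1 ≤ M ^ 5 := one_le_pow₀ hM
  have hM13 : 1 ≤ M ^ 13 := one_le_pow₀ hM
  have hB12 : B ≤ B ^ 12 := le_self_pow₀ hB (by norm_num)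
  have hB19 : 1 ≤ B ^ 19 := one_le_pow₀ hB
  have hb5 : B ≤ M ^ 5 * B ^ 12 := by
    calc B ≤ 1 * B ^ 12 := by linarith
      _ ≤ M ^ 5 * B ^ 12 := by gcongr
  have hb19 : 1 ≤ M ^ 13 * B ^ 19 := one_le_mul_of_one_le_of_one_le hM13 hB19
  refine ⟨4 * (10 * M ^ 5 * B ^ 12), 64 * M ^ 13 * B ^ 19, ?_, ?_, fun h hh X t₀ S hX ht hS => ?_⟩
  · have e : 4 * (10 * M ^ 5 * B ^ 12) = 40 * (M ^ 5 * B ^ 12) := by ring
    rw [e]
    linarith
  · have e : 64 * M ^ 13 * B ^ 19 = 64 * (M ^ 13 * B ^ 19) := by ring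
    rw [e]
    linarith
  rw [IH_eq hh.hom t₀ hS]
  have hmf : Measurable (fun f : Fr => ENNReal.ofReal (mf h t₀ S f)) := (mf_meas hh.hom t₀ S).ennreal_ofReal
  have hind : Measurable ((UP (10 * M ^ 5 * B ^ 12) X).indicator fun f => ENNReal.ofReal (mf h t₀ S f)) := hmf.indicator (UP_meas _ _)
  have hB0 : 0 < B := by linarith
  have hb0 : 0 < 10 * M ^ 5 * B ^ 12 := by positivity
  calc ENNReal.ofReal X * ∫⁻ θ in Ioc (-π) π, ∫⁻ A in OM B X, ENNReal.ofReal (qf h θ t₀ S A)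
      = ∫⁻ θ in Ioc (-π) π, ENNReal.ofReal X * ∫⁻ A in OM B X, ENNReal.ofReal (qf h θ t₀ S A) :=
        (lintegral_const_mul' _ _ ENNReal.ofReal_ne_top).symm
    _ ≤ ∫⁻ θ in Ioc (-π) π, ENNReal.ofReal (64 * M ^ 13 * B ^ 19) *
          ∫⁻ a in Ioi (0 : ℝ), ∫⁻ b, ∫⁻ c in Iio (b ^ 2 / a), ENNReal.ofReal (jA (p2 h θ) (ka h θ) (a, b, c)) *
          (UP (10 * M ^ 5 * B ^ 12) X).indicator (fun f => ENNReal.ofReal (mf h t₀ S f)) (gA θ (p2 h θ) (be h θ) (ka h θ) (a, b, c)) :=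
        lintegral_mono fun θ => lo_dir (hPr h hh θ) hB hX θ hmf
    _ = ENNReal.ofReal (64 * M ^ 13 * B ^ 19) * ∫⁻ θ in Ioc (-π) π,
          ∫⁻ a in Ioi (0 : ℝ), ∫⁻ b, ∫⁻ c in Iio (b ^ 2 / a), ENNReal.ofReal (jA (p2 h θ) (ka h θ) (a, b, c)) *
          (UP (10 * M ^ 5 * B ^ 12) X).indicator (fun f => ENNReal.ofReal (mf h t₀ S f)) (gA θ (p2 h θ) (be h θ) (ka h θ) (a, b, c)) :=
        lintegral_const_mul' _ _ ENNReal.ofReal_ne_top
    _ = ENNReal.ofReal (64 * M ^ 13 * B ^ 19) * ∫⁻ f, (UP (10 * M ^ 5 * B ^ 12) X).indicator (fun f => ENNReal.ofReal (mf h t₀ S f)) f := by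
        rw [int_gA hind (fun f hf => indicator_of_notMem (fun hU => absurd (UP_pos hb0 hX hU) (not_lt.2 hf)) _) (p2 h) (be h) (ka h)
          (fun θ => (hPr h hh θ).q0) (fun θ => (hPr h hh θ).κ0)]
    _ = ENNReal.ofReal (64 * M ^ 13 * B ^ 19) * ∫⁻ f, (UP (10 * M ^ 5 * B ^ 12) X).indicator (fun f => ENNReal.ofReal (mf h t₀ S f)) (shr t₀ f) := by
        rw [shear_int hind t₀]
    _ ≤ ENNReal.ofReal (64 * M ^ 13 * B ^ 19) * ∫⁻ f, (UP (4 * (10 * M ^ 5 * B ^ 12)) X).indicator (fun f => ENNReal.ofReal (mf h t₀ S (shr t₀ f))) f := by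
        refine mul_le_mul_right (lintegral_mono fun f => ?_) _
        by_cases hf : shr t₀ f ∈ UP (10 * M ^ 5 * B ^ 12) X
        · have h2 : f ∈ UP (4 * (10 * M ^ 5 * B ^ 12)) X := by
            have := shr_UP (t₀ := -t₀) hX.le hb0.le (by rw [abs_neg]; exact ht) hf
            rwa [shr_neg] at this
          rw [indicator_of_mem hf, indicator_of_mem h2]
        · rw [indicator_of_notMem hf]
          exact zero_le
    _ = _ := by rw [lintegral_indicator (UP_meas _ _)]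

end Pool.Agent.Helper3.AC
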