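import Pool.Agent.Helper86.AC.Sub
import Pool.Agent.Helper48.QL.L5b

/-!
# AC-V: bounds in the coordinates, the regions
-/

open MeasureTheory Real Set Filter Topology

set_option autoImplicit false

namespace Pool.Agent.Helper86.AC

open Pool.Agent.Helper60.LT (Fr Tf xf yf df vf fr fr_coord fr_meas int_fr sl Hom Cv)
open Pool.Agent.Helper60.QL (R3 OM UB)
open Pool.Agent.Helper48.QL (shr df_meas shr_meas shear_int OM_meas lint3 coord_bd UB_bd shr_neg)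
open Pool.Agent.Helper3.AC

/-- bounds for the parameters of a direction -/
structure Pr (M q β κ : ℝ) : Prop where
  one : 1 ≤ M
  q0 : 0 < q
  κ0 : 0 < κ
  q1 : q ≤ M
  q2 : 1 ≤ M * q
  b1 : |β| ≤ M
  κ1 : κ ≤ M
  κ2 : 1 ≤ M * κ

theorem exists_Pr {c₁ B₀ : ℝ} (hc : 0 < c₁) (hB₀ : 1 ≤ B₀) : ∃ M : ℝ, 1 ≤ M ∧ ∀ h : ℝ × ℝ → ℝ, HA c₁ B₀ h → ∀ θ,
    Pr M (p2 h θ) (be h θ) (ka h θ) := by
  have hi : 0 < 1 / c₁ := by positivity
  have hb : 0 < B₀ := by linarith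
  refine ⟨B₀ + 1 / c₁ + B₀ / c₁ + (B₀ / c₁) ^ 2, ?_, fun h hh θ => ?_⟩
  · have h1 : 0 < B₀ / c₁ := by positivity
    have h2 : 0 ≤ (B₀ / c₁) ^ 2 := by positivity
    linarith
  have h1 : 0 < B₀ / c₁ := by positivity
  have h2 : 0 ≤ (B₀ / c₁) ^ 2 := by positivity
  obtain ⟨M, hM⟩ : ∃ M, M = B₀ + 1 / c₁ + B₀ / c₁ + (B₀ / c₁) ^ 2 := ⟨_, rfl⟩
  rw [← hM]
  have hcv := hh.hom.cv θ
  have z : |(0 : ℝ)| ≤ 1 := by norm_num
  have g1 : c₁ ≤ p2 h θ := hcv.lo 0 z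
  have g2 : |p2 h θ| ≤ B₀ := hcv.d2 0 z
  have g3 : |p3 h θ| ≤ B₀ := hcv.d3 0 z
  have g4 : |p4 h θ| ≤ B₀ := hcv.d4 0 z
  have hq0 : 0 < p2 h θ := by linarith
  have hk : c₁ ≤ ka h θ := hh.ka θ
  have hbe : |be h θ| ≤ B₀ / c₁ := by
    unfold be
    rw [abs_div, abs_of_pos (show 0 < 3 * p2 h θ by positivity), div_le_div_iff₀ (by positivity) hc]
    calc |p3 h θ| * c₁ ≤ B₀ * (p2 h θ) := by gcongr
      _ ≤ B₀ * (3 * p2 h θ) := by
        have : 0 < B₀ * p2 h θ := by positivity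
        linarith
  have hdc : c₁ * (1 / c₁) = 1 := by field_simp
  have inv : ∀ x : ℝ, c₁ ≤ x → 1 ≤ M * x := by
    intro x hx
    calc 1 = 1 / c₁ * c₁ := by field_simp
      _ ≤ M * x := by
        have : 1 / c₁ ≤ M := by linarith
        have hM0 : 0 ≤ M := by linarith
        gcongr
  refine ⟨by linarith, hq0, by linarith, ?_, inv _ g1, by linarith, ?_, inv _ hk⟩
  · have := le_abs_self (p2 h θ)
    linarith
  · have h4 : |p4 h θ / (12 * p2 h θ)| ≤ B₀ / c₁ := by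
      rw [abs_div, abs_of_pos (show 0 < 12 * p2 h θ by positivity), div_le_div_iff₀ (by positivity) hc]
      calc |p4 h θ| * c₁ ≤ B₀ * (p2 h θ) := by gcongr
        _ ≤ B₀ * (12 * p2 h θ) := by
          have : 0 < B₀ * p2 h θ := by positivity
          linarith
    have h5 : be h θ ^ 2 ≤ (B₀ / c₁) ^ 2 := by
      rw [← sq_abs]
      exact pow_le_pow_left₀ (abs_nonneg _) hbe 2
    have h6 : -(p4 h θ / (12 * p2 h θ)) ≤ |p4 h θ / (12 * p2 h θ)| := neg_le_abs _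
    unfold ka
    linarith

/-- the coordinates of `gA` -/
theorem gA_coord {θ q β κ a b c : ℝ} (hq : 0 < q) (hκ : 0 < κ) (ha : 0 < a) (hc : c < b ^ 2 / a) :
    Tf (gA θ q β κ (a, b, c)) = TA q κ (a, b, c) ∧ xf (gA θ q β κ (a, b, c)) = xA β κ (a, b, c) ∧ yf (gA θ q β κ (a, b, c)) = yA κ (a, b, c) ∧
      df (gA θ q β κ (a, b, c)) = TA q κ (a, b, c) ^ 2 * yA κ (a, b, c) ∧ 0 < yA κ (a, b, c) ∧ 0 < TA q κ (a, b, c) := by
  have hy := yA_pos hκ ha hc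
  have hT : 0 < TA q κ (a, b, c) := by
    show 0 < 2 * a / (q * yA κ (a, b, c) ^ 2)
    positivity
  obtain ⟨h1, h2, h3, h4⟩ := fr_coord (θ := θ) (y := yA κ (a, b, c)) (T := TA q κ (a, b, c)) (x := xA β κ (a, b, c)) hT
  exact ⟨h1, h2, h3, h4, hy, hT⟩

/-- the coordinates are in the region -/
theorem OM_of' {T x y a b c X B M q β κ : ℝ} (hP : Pr M q β κ) (hT : 0 < T) (hX : 0 < X) (hB : 1 ≤ B) (h1 : T ^ 2 ≤ 2 * B ^ 2 * X ^ 2)
    (h2 : T ^ 2 * (x ^ 2 + y ^ 2) ≤ 2 * B ^ 2 * X ^ 2) (h3 : X ^ 2 ≤ B * (T ^ 2 * |y|))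
    (ha : a = T * q * y ^ 2 / 2) (hb : b = a * (-x + β * y)) (hc : c * a = b ^ 2 - κ * a ^ 2 * y ^ 2) :
    (a, b, c) ∈ OM (65536 * M ^ 3 * B ^ 22) X := by
  obtain ⟨g1, g2, g3, g4, g5⟩ := coord_bd hT hX hB h1 h2 h3
  obtain ⟨m1, m2, m3, m4, m5, m6, m7, m8⟩ := hP
  have hB0 : 0 < B := by linarith
  have hM0 : 0 < M := by linarith
  have hy2 : y ^ 2 ≤ 16 * B ^ 6 := by
    have : |y| ^ 2 ≤ (4 * B ^ 3) ^ 2 := pow_le_pow_left₀ (abs_nonneg _) g4 2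
    rw [sq_abs] at this
    calc y ^ 2 ≤ _ := this
      _ = _ := by ring
  have hy3 : 1 ≤ 16 * B ^ 6 * y ^ 2 := by
    have : 1 ^ 2 ≤ (4 * B ^ 3 * |y|) ^ 2 := pow_le_pow_left₀ (by norm_num) g5 2
    rw [mul_pow, sq_abs] at this
    calc (1 : ℝ) = 1 ^ 2 := by norm_num
      _ ≤ _ := this
      _ = _ := by ring
  have ha1 : a ≤ 16 * M * B ^ 7 * X := by
    rw [ha]
    calc T * q * y ^ 2 / 2 ≤ 2 * B * X * M * (16 * B ^ 6) / 2 := by gcongr
      _ = 16 * M * B ^ 7 * X := by ring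
  have ha2 : X ≤ 64 * M * B ^ 8 * a := by
    rw [ha]
    calc X ≤ 2 * B ^ 2 * T := g2
      _ = 2 * B ^ 2 * T * 1 * 1 := by ring
      _ ≤ 2 * B ^ 2 * T * (16 * B ^ 6 * y ^ 2) * (M * q) := by gcongr
      _ = 64 * M * B ^ 8 * (T * q * y ^ 2 / 2) := by ring
  have ha0 : 0 < a := by
    by_contra hcon
    push Not at hcon
    have : 64 * M * B ^ 8 * a ≤ 0 := mul_nonpos_of_nonneg_of_nonpos (by positivity) hcon
    linarith
  have pw : ∀ i : ℕ, i ≤ 22 → B ^ i ≤ B ^ 22 := fun i hi => pow_le_pow_right₀ hB hi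
  have pm : ∀ i : ℕ, i ≤ 3 → M ^ i ≤ M ^ 3 := fun i hi => pow_le_pow_right₀ m1 hi
  have hs : |-x + β * y| ≤ 8 * M * B ^ 3 := by
    calc |-x + β * y| ≤ |-x| + |β * y| := abs_add_le _ _
      _ = |x| + |β| * |y| := by rw [abs_neg, abs_mul]
      _ ≤ 4 * B ^ 3 + M * (4 * B ^ 3) := by gcongr
      _ ≤ M * (4 * B ^ 3) + M * (4 * B ^ 3) := by
        have : 0 < 4 * B ^ 3 := by positivity
        have := mul_le_mul_of_nonneg_right m1 this.le
        linarith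
      _ = 8 * M * B ^ 3 := by ring
  have hb1 : |b| ≤ 128 * M ^ 2 * B ^ 10 * X := by
    rw [hb, abs_mul, abs_of_pos ha0]
    calc a * |-x + β * y| ≤ 16 * M * B ^ 7 * X * (8 * M * B ^ 3) := by gcongr
      _ = _ := by ring
  have hc1 : |c| ≤ 1280 * M ^ 3 * B ^ 13 * X := by
    have e : c = a * ((-x + β * y) ^ 2 - κ * y ^ 2) := by
      have e2 : c * a = a * ((-x + β * y) ^ 2 - κ * y ^ 2) * a := by
        rw [hc, hb]
        ring
      exact mul_right_cancel₀ ha0.ne' e2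
    have e3 : |(-x + β * y) ^ 2 - κ * y ^ 2| ≤ 80 * M ^ 2 * B ^ 6 := by
      have f1 : (-x + β * y) ^ 2 ≤ 64 * M ^ 2 * B ^ 6 := by
        rw [← sq_abs]
        calc |-x + β * y| ^ 2 ≤ (8 * M * B ^ 3) ^ 2 := pow_le_pow_left₀ (abs_nonneg _) hs 2
          _ = _ := by ring
      have f2 : κ * y ^ 2 ≤ M * (16 * B ^ 6) := by gcongr
      have f3 : M * (16 * B ^ 6) ≤ 16 * M ^ 2 * B ^ 6 := by
        calc M * (16 * B ^ 6) = 1 * (16 * M * B ^ 6) := by ring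
          _ ≤ M * (16 * M * B ^ 6) := by gcongr
          _ = _ := by ring
      have f4 : 0 ≤ (-x + β * y) ^ 2 := sq_nonneg _
      have f5 : 0 ≤ κ * y ^ 2 := by positivity
      rw [abs_le]
      constructor <;> linarith
    rw [e, abs_mul, abs_of_pos ha0]
    calc a * |(-x + β * y) ^ 2 - κ * y ^ 2| ≤ 16 * M * B ^ 7 * X * (80 * M ^ 2 * B ^ 6) := by gcongr
      _ = _ := by ring
  refine ⟨?_, ?_, ?_, ?_, ?_⟩
  · show X ≤ 65536 * M ^ 3 * B ^ 22 * a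
    calc X ≤ 64 * M ^ 1 * B ^ 8 * a := by rw [pow_one]; exact ha2
      _ ≤ 65536 * M ^ 3 * B ^ 22 * a := by
        have := pw 8 (by norm_num)
        have := pm 1 (by norm_num)
        gcongr
        norm_num
  · show a ≤ 65536 * M ^ 3 * B ^ 22 * X
    calc a ≤ 16 * M ^ 1 * B ^ 7 * X := by rw [pow_one]; exact ha1
      _ ≤ 65536 * M ^ 3 * B ^ 22 * X := by
        have := pw 7 (by norm_num)
        have := pm 1 (by norm_num)
        gcongr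
        norm_num
  · show |b| ≤ 65536 * M ^ 3 * B ^ 22 * X
    calc |b| ≤ 128 * M ^ 2 * B ^ 10 * X := hb1
      _ ≤ 65536 * M ^ 3 * B ^ 22 * X := by
        have := pw 10 (by norm_num)
        have := pm 2 (by norm_num)
        gcongr
        norm_num
  · show |c| ≤ 65536 * M ^ 3 * B ^ 22 * X
    calc |c| ≤ 1280 * M ^ 3 * B ^ 13 * X := hc1
      _ ≤ 65536 * M ^ 3 * B ^ 22 * X := by
        have := pw 13 (by norm_num)
        gcongr
        norm_num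
  · show X ^ 2 ≤ 65536 * M ^ 3 * B ^ 22 * (b ^ 2 - c * a)
    rw [hc]
    calc X ^ 2 ≤ (64 * M * B ^ 8 * a) ^ 2 := pow_le_pow_left₀ hX.le ha2 2
      _ = 4096 * M ^ 2 * B ^ 16 * a ^ 2 * 1 * 1 := by ring
      _ ≤ 4096 * M ^ 2 * B ^ 16 * a ^ 2 * (16 * B ^ 6 * y ^ 2) * (M * κ) := by gcongr
      _ = 65536 * M ^ 3 * B ^ 22 * (b ^ 2 - (b ^ 2 - κ * a ^ 2 * y ^ 2)) := by ring

/-- bounds in the region of coordinates -/
theorem OM_bd' {B X M q β κ a b c : ℝ} (hP : Pr M q β κ) (hB : 1 ≤ B) (hX : 0 < X) (h : (a, b, c) ∈ OM B X) : 0 < a ∧ c < b ^ 2 / a ∧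
    TA q κ (a, b, c) ≤ 2 * M ^ 2 * B ^ 4 * X ∧ X ≤ 2 * M ^ 2 * B ^ 5 * TA q κ (a, b, c) ∧ |xA β κ (a, b, c)| ≤ 3 * M ^ 2 * B ^ 2 ∧
      yA κ (a, b, c) ≤ 2 * M * B ^ 2 ∧ 1 ≤ M * B ^ 2 * yA κ (a, b, c) := by
  obtain ⟨h1, h2, h3, h4, h5⟩ := h
  obtain ⟨m1, m2, m3, m4, m5, m6, m7, m8⟩ := hP
  simp only at h1 h2 h3 h4 h5
  have hB0 : 0 < B := by linarith
  have hM0 : 0 < M := by linarith
  have ha : 0 < a := by
    by_contra hcon
    push Not at hcon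
    have : B * a ≤ 0 := mul_nonpos_of_nonneg_of_nonpos hB0.le hcon
    linarith
  have hd : 0 < b ^ 2 - c * a := by
    by_contra hcon
    push Not at hcon
    have : 0 < X ^ 2 := by positivity
    have : B * (b ^ 2 - c * a) ≤ 0 := mul_nonpos_of_nonneg_of_nonpos hB0.le hcon
    linarith
  have hc : c < b ^ 2 / a := by
    rw [lt_div_iff₀ ha]
    linarith
  have hy := yA_pos m3 ha hc
  have hsq := yA_sq m3 ha hc.le
  obtain ⟨y, hyy⟩ : ∃ y, y = yA κ (a, b, c) := ⟨_, rfl⟩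
  rw [← hyy] at hy hsq
  have hsq2 : κ * (y ^ 2 * a ^ 2) = b ^ 2 - c * a := by
    rw [hsq]
    field_simp
  have hTe : TA q κ (a, b, c) = 2 * a / (q * y ^ 2) := by
    rw [hyy]
    rfl
  have hT : 0 < TA q κ (a, b, c) := by
    rw [hTe]
    positivity
  have hTy : TA q κ (a, b, c) * (q * y ^ 2) = 2 * a := by
    rw [hTe]
    field_simp
  have hlo : 1 ≤ M * B ^ 3 * y ^ 2 := by
    have e1 : 1 * X ^ 2 ≤ M * B ^ 3 * y ^ 2 * X ^ 2 := by
      calc 1 * X ^ 2 = X ^ 2 := one_mul _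
        _ ≤ B * (b ^ 2 - c * a) := h5
        _ = B * (κ * (y ^ 2 * a ^ 2)) := by rw [hsq2]
        _ ≤ B * (M * (y ^ 2 * (B * X) ^ 2)) := by gcongr
        _ = M * B ^ 3 * y ^ 2 * X ^ 2 := by ring
    exact le_of_mul_le_mul_right e1 (by positivity)
  have hup : y ^ 2 ≤ 2 * M * B ^ 4 := by
    have hb2 : b ^ 2 ≤ (B * X) ^ 2 := by
      rw [← sq_abs b]
      exact pow_le_pow_left₀ (abs_nonneg _) h3 2
    have hca : -(c * a) ≤ (B * X) ^ 2 := by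
      calc -(c * a) ≤ |c * a| := neg_le_abs _
        _ = |c| * a := by rw [abs_mul, abs_of_pos ha]
        _ ≤ (B * X) * (B * X) := by gcongr
        _ = (B * X) ^ 2 := by ring
    have e1 : y ^ 2 * a ^ 2 ≤ 2 * M * B ^ 4 * a ^ 2 := by
      calc y ^ 2 * a ^ 2 = 1 * (y ^ 2 * a ^ 2) := (one_mul _).symm
        _ ≤ M * κ * (y ^ 2 * a ^ 2) := by gcongr
        _ = M * (κ * (y ^ 2 * a ^ 2)) := by ring
        _ = M * (b ^ 2 - c * a) := by rw [hsq2]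
        _ ≤ M * (2 * (B * X) ^ 2) := by gcongr; linarith
        _ ≤ M * (2 * (B * (B * a)) ^ 2) := by gcongr
        _ = 2 * M * B ^ 4 * a ^ 2 := by ring
    exact le_of_mul_le_mul_right e1 (by positivity)
  have hy1 : y ≤ 2 * M * B ^ 2 := by
    have e1 : y ^ 2 ≤ (2 * M * B ^ 2) ^ 2 := by
      calc y ^ 2 ≤ 2 * M * B ^ 4 := hup
        _ = 1 * (2 * M * B ^ 4) := (one_mul _).symm
        _ ≤ (2 * M) * (2 * M * B ^ 4) := by gcongr; linarith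
        _ = (2 * M * B ^ 2) ^ 2 := by ring
    exact (abs_le_of_sq_le_sq' e1 (by positivity)).2
  refine ⟨ha, hc, ?_, ?_, ?_, by rw [← hyy]; exact hy1, ?_⟩
  · calc TA q κ (a, b, c) = TA q κ (a, b, c) * 1 * 1 := by ring
      _ ≤ TA q κ (a, b, c) * (M * q) * (M * B ^ 3 * y ^ 2) := by gcongr
      _ = M ^ 2 * B ^ 3 * (TA q κ (a, b, c) * (q * y ^ 2)) := by ring
      _ = M ^ 2 * B ^ 3 * (2 * a) := by rw [hTy]
      _ ≤ M ^ 2 * B ^ 3 * (2 * (B * X)) := by gcongr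
      _ = 2 * M ^ 2 * B ^ 4 * X := by ring
  · have e1 : 2 * X ≤ 2 * (2 * M ^ 2 * B ^ 5 * TA q κ (a, b, c)) := by
      calc 2 * X ≤ 2 * (B * a) := by linarith
        _ = B * (2 * a) := by ring
        _ = B * (TA q κ (a, b, c) * (q * y ^ 2)) := by rw [hTy]
        _ ≤ B * (TA q κ (a, b, c) * (M * (2 * M * B ^ 4))) := by gcongr
        _ = 2 * M ^ 2 * B ^ 5 * TA q κ (a, b, c) := by ring
        _ ≤ 2 * (2 * M ^ 2 * B ^ 5 * TA q κ (a, b, c)) := by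
          have : 0 ≤ 2 * M ^ 2 * B ^ 5 * TA q κ (a, b, c) := by positivity
          linarith
    linarith
  · have e1 : |b / a| ≤ B ^ 2 := by
      rw [abs_div, abs_of_pos ha, div_le_iff₀ ha]
      calc |b| ≤ B * X := h3
        _ ≤ B * (B * a) := by gcongr
        _ = B ^ 2 * a := by ring
    have e2 : xA β κ (a, b, c) = -(b / a) + β * y := by
      rw [hyy]
      rfl
    rw [e2]
    calc |-(b / a) + β * y| ≤ |-(b / a)| + |β * y| := abs_add_le _ _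
      _ = |b / a| + |β| * y := by rw [abs_neg, abs_mul, abs_of_pos hy]
      _ ≤ B ^ 2 + M * (2 * M * B ^ 2) := by gcongr
      _ = 1 * B ^ 2 + 2 * M ^ 2 * B ^ 2 := by ring
      _ ≤ M ^ 2 * B ^ 2 + 2 * M ^ 2 * B ^ 2 := by
        have : 1 ≤ M ^ 2 := one_le_pow₀ m1
        gcongr
      _ = 3 * M ^ 2 * B ^ 2 := by ring
  · rw [← hyy]
    have e1 : (1 : ℝ) ^ 2 ≤ (M * B ^ 2 * y) ^ 2 := by
      calc (1 : ℝ) ^ 2 = 1 := one_pow 2
        _ ≤ M * B ^ 3 * y ^ 2 := hlo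
        _ ≤ M * (M * B ^ 4 * y ^ 2) := by
          have k1 := pow_le_pow_right₀ hB (show 3 ≤ 4 by norm_num)
          calc M * B ^ 3 * y ^ 2 ≤ M * B ^ 4 * y ^ 2 := by gcongr
            _ = 1 * (M * B ^ 4 * y ^ 2) := (one_mul _).symm
            _ ≤ M * (M * B ^ 4 * y ^ 2) := by gcongr
        _ = (M * B ^ 2 * y) ^ 2 := by ring
    exact (abs_le_of_sq_le_sq' e1 (by positivity)).2

theorem UP_meas (B X : ℝ) : MeasurableSet (UP B X) := by
  have h1 : Measurable (fun f : Fr => |f.1.1|) := by fun_prop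
  have h2 : Measurable (fun f : Fr => |f.1.2|) := by fun_prop
  have h3 : Measurable (fun f : Fr => |f.2.1|) := by fun_prop
  have h4 : Measurable (fun f : Fr => |f.2.2|) := by fun_prop
  have h5 : Measurable (fun f : Fr => B * df f) := df_meas.const_mul B
  exact (measurableSet_le h1 measurable_const).inter ((measurableSet_le h2 measurable_const).inter
    ((measurableSet_le h3 measurable_const).inter ((measurableSet_le h4 measurable_const).inter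
    (measurableSet_le measurable_const h5))))

theorem UP_pos {B X : ℝ} (hB : 0 < B) (hX : 0 < X) {f : Fr} (hf : f ∈ UP B X) : 0 < df f := by
  have h1 : X ^ 2 ≤ B * df f := hf.2.2.2.2
  have h2 : 0 < X ^ 2 := by positivity
  by_contra hcon
  push Not at hcon
  have : B * df f ≤ 0 := mul_nonpos_of_nonneg_of_nonpos hB.le hcon
  linarith

theorem UP_UB {B X : ℝ} (hB : 0 < B) {f : Fr} (hf : f ∈ UP B X) : f ∈ UB B X := by
  obtain ⟨h1, h2, h3, h4, h5⟩ := hf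
  refine ⟨h1, h2, h3, h4, h5.trans ?_⟩
  have := le_abs_self (df f)
  gcongr

theorem shr_UP {B X t₀ : ℝ} (hX : 0 ≤ X) (hB : 0 ≤ B) (ht : |t₀| ≤ 3) {f : Fr} (hf : f ∈ UP B X) : shr t₀ f ∈ UP (4 * B) X := by
  obtain ⟨h1, h2, h3, h4, h5⟩ := hf
  have hBX : 0 ≤ B * X := mul_nonneg hB hX
  have e : df (shr t₀ f) = df f := by
    simp only [df, shr]
    ring
  refine ⟨?_, ?_, ?_, ?_, ?_⟩
  · show |f.1.1 + t₀ * f.2.1| ≤ _
    calc |f.1.1 + t₀ * f.2.1| ≤ |f.1.1| + |t₀ * f.2.1| := abs_add_le _ _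
      _ = |f.1.1| + |t₀| * |f.2.1| := by rw [abs_mul]
      _ ≤ B * X + 3 * (B * X) := by gcongr
      _ = 4 * B * X := by ring
  · show |f.1.2 + t₀ * f.2.2| ≤ _
    calc |f.1.2 + t₀ * f.2.2| ≤ |f.1.2| + |t₀ * f.2.2| := abs_add_le _ _
      _ = |f.1.2| + |t₀| * |f.2.2| := by rw [abs_mul]
      _ ≤ B * X + 3 * (B * X) := by gcongr
      _ = 4 * B * X := by ring
  · show |f.2.1| ≤ _
    linarith
  · show |f.2.2| ≤ _
    linarith
  · rw [e]
    have h6 : 0 ≤ X ^ 2 := by positivity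
    have : 4 * B * df f = 4 * (B * df f) := by ring
    rw [this]
    linarith

end Pool.Agent.Helper86.AC
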