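import Pool.Agent.Helper3.AC.Defs
import Pool.Agent.Helper48.QL.Box

/-!
# AC-V: integration over frames in the coordinates `θ, A₂, A₃, A₄` (fixed `q = p₂`, `β`, `κ`)

`A₂ = T q y²/2`, `A₃ = A₂ (- x + β y)`, `A₃² - A₂ A₄ = κ A₂² y²`; the Jacobian is `4 T / (q³ κ y⁷)`.
-/

open MeasureTheory Real Set Filter Topology

set_option autoImplicit false

namespace Pool.Agent.Helper86.AC

open Pool.Agent.Helper60.LT (Fr Tf xf yf df vf fr fr_coord fr_meas int_fr)
open Pool.Agent.Helper60.QL (R3 OM)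
open Pool.Agent.Helper3.AC

theorem sub1 (Φ : ℝ → ENNReal) {y q : ℝ} (hy : y ≠ 0) (hq : 0 < q) :
    ∫⁻ T in Ioi (0 : ℝ), Φ T = ∫⁻ a in Ioi (0 : ℝ), ENNReal.ofReal (2 / (q * y ^ 2)) * Φ (2 * a / (q * y ^ 2)) := by
  have hy2 : 0 < q * y ^ 2 := by positivity
  have him : (fun a : ℝ => 2 * a / (q * y ^ 2)) '' Ioi (0 : ℝ) = Ioi 0 := by
    ext T
    constructor
    · rintro ⟨a, ha, rfl⟩
      have ha' : 0 < a := ha
      show 0 < 2 * a / (q * y ^ 2)
      positivity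
    · intro hT
      have hT' : 0 < T := hT
      refine ⟨T * (q * y ^ 2) / 2, show 0 < T * (q * y ^ 2) / 2 by positivity, ?_⟩
      field_simp
  have h := lintegral_image_eq_lintegral_abs_deriv_mul (s := Ioi (0 : ℝ)) (f := fun a : ℝ => 2 * a / (q * y ^ 2))
    (f' := fun _ => 2 / (q * y ^ 2)) measurableSet_Ioi (fun a _ => by
      have h1 : HasDerivAt (fun a : ℝ => 2 * a / (q * y ^ 2)) (2 * 1 / (q * y ^ 2)) a := ((hasDerivAt_id a).const_mul 2).div_const _
      rw [mul_one] at h1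
      exact h1.hasDerivWithinAt) (by
      intro a _ b _ hab
      simp only at hab
      rw [div_left_inj' hy2.ne'] at hab
      linarith) Φ
  rw [him] at h
  rw [h]
  refine lintegral_congr fun a => ?_
  rw [abs_of_pos (by positivity)]

theorem sub2 (Φ : ℝ → ENNReal) {a : ℝ} (ha : 0 < a) (s : ℝ) :
    ∫⁻ x, Φ x = ∫⁻ b, ENNReal.ofReal (1 / a) * Φ (-(b / a) + s) := by
  have him : (fun b : ℝ => -(b / a) + s) '' univ = univ := by
    rw [image_univ]
    refine range_eq_univ.2 fun x => ⟨-((x - s) * a), ?_⟩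
    field_simp
    ring
  have h := lintegral_image_eq_lintegral_abs_deriv_mul (s := univ) (f := fun b : ℝ => -(b / a) + s)
    (f' := fun _ => -(1 / a)) MeasurableSet.univ (fun b _ =>
      ((((hasDerivAt_id b).div_const a).neg).add_const s).hasDerivWithinAt) (by
      intro u _ v _ hab
      simp only at hab
      have h1 : u / a = v / a := by linarith
      rwa [div_left_inj' ha.ne'] at h1) Φ
  rw [him, setLIntegral_univ, setLIntegral_univ] at h
  rw [h]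
  refine lintegral_congr fun b => ?_
  rw [abs_neg, abs_of_pos (by positivity)]

theorem yA_sq {κ a b c : ℝ} (hκ : 0 < κ) (ha : 0 < a) (h : c ≤ b ^ 2 / a) : yA κ (a, b, c) ^ 2 = (b ^ 2 - c * a) / (κ * a ^ 2) := by
  have h1 : c * a ≤ b ^ 2 := by rwa [le_div_iff₀ ha] at h
  have h2 : 0 ≤ (b ^ 2 - c * a) / (κ * a ^ 2) := div_nonneg (by linarith) (by positivity)
  show √((b ^ 2 - c * a) / (κ * a ^ 2)) ^ 2 = _
  rw [sq_sqrt h2]

theorem yA_pos {κ a b c : ℝ} (hκ : 0 < κ) (ha : 0 < a) (h : c < b ^ 2 / a) : 0 < yA κ (a, b, c) := by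
  have h1 : c * a < b ^ 2 := by rwa [lt_div_iff₀ ha] at h
  show 0 < √((b ^ 2 - c * a) / (κ * a ^ 2))
  exact sqrt_pos.2 (div_pos (by linarith) (by positivity))

theorem sub3 (Φ : ℝ → ENNReal) {κ a : ℝ} (hκ : 0 < κ) (ha : 0 < a) (b : ℝ) :
    ∫⁻ y in Ioi (0 : ℝ), Φ y = ∫⁻ c in Iio (b ^ 2 / a), ENNReal.ofReal (1 / (2 * κ * a * yA κ (a, b, c))) * Φ (yA κ (a, b, c)) := by
  have him : (fun c : ℝ => yA κ (a, b, c)) '' Iio (b ^ 2 / a) = Ioi 0 := by
    ext y
    constructor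
    · rintro ⟨c, hc, rfl⟩
      exact yA_pos hκ ha hc
    · intro hy
      have hy' : 0 < y := hy
      have hc : (b ^ 2 - κ * a ^ 2 * y ^ 2) / a < b ^ 2 / a := by
        have : 0 < κ * a ^ 2 * y ^ 2 := by positivity
        exact div_lt_div_of_pos_right (by linarith) ha
      refine ⟨(b ^ 2 - κ * a ^ 2 * y ^ 2) / a, hc, ?_⟩
      have h1 : (b ^ 2 - (b ^ 2 - κ * a ^ 2 * y ^ 2) / a * a) / (κ * a ^ 2) = y ^ 2 := by
        field_simp
        ring
      show √((b ^ 2 - (b ^ 2 - κ * a ^ 2 * y ^ 2) / a * a) / (κ * a ^ 2)) = y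
      rw [h1, sqrt_sq hy'.le]
  have h := lintegral_image_eq_lintegral_abs_deriv_mul (s := Iio (b ^ 2 / a)) (f := fun c : ℝ => yA κ (a, b, c))
    (f' := fun c => -(1 / (2 * κ * a * yA κ (a, b, c)))) measurableSet_Iio (fun c hc => by
      have hpos := yA_pos hκ ha hc
      have hsq := yA_sq hκ ha (le_of_lt hc)
      have h1 : HasDerivAt (fun c : ℝ => (b ^ 2 - c * a) / (κ * a ^ 2)) (-(1 * a) / (κ * a ^ 2)) c :=
        (((hasDerivAt_id c).mul_const a).const_sub (b ^ 2)).div_const _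
      have h2 : (b ^ 2 - c * a) / (κ * a ^ 2) ≠ 0 := by
        rw [← hsq]
        positivity
      have h3 := h1.sqrt h2
      have h4 : -(1 * a) / (κ * a ^ 2) / (2 * √((b ^ 2 - c * a) / (κ * a ^ 2))) = -(1 / (2 * κ * a * yA κ (a, b, c))) := by
        show -(1 * a) / (κ * a ^ 2) / (2 * yA κ (a, b, c)) = _
        field_simp
      rw [h4] at h3
      exact h3.hasDerivWithinAt) (by
      intro u hu v hv hab
      have h1 := yA_sq hκ ha (le_of_lt hu)
      have h2 := yA_sq hκ ha (le_of_lt hv)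
      simp only at hab
      rw [hab, h2, div_left_inj' (by positivity)] at h1
      have h3 : u * a = v * a := by linarith
      exact mul_right_cancel₀ ha.ne' h3) Φ
  rw [him] at h
  rw [h]
  refine setLIntegral_congr_fun measurableSet_Iio fun c hc => ?_
  have hpos := yA_pos hκ ha hc
  rw [abs_neg, abs_of_pos (by positivity)]

theorem yA_meas (κ : ℝ) : Measurable (fun A : R3 => yA κ A) := by
  unfold yA
  fun_prop

theorem TA_meas (q κ : ℝ) : Measurable (fun A : R3 => TA q κ A) := by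
  unfold TA
  exact (measurable_fst.const_mul 2).div (((yA_meas κ).pow_const 2).const_mul q)

theorem xA_meas (β κ : ℝ) : Measurable (fun A : R3 => xA β κ A) := by
  unfold xA
  have h1 : Measurable (fun A : R3 => -(A.2.1 / A.1)) := by fun_prop
  exact h1.add ((yA_meas κ).const_mul β)

/-- the frame with the coordinates `A`, for fixed `θ, q, β, κ` -/
noncomputable def gA (θ q β κ : ℝ) (A : R3) : Fr := fr θ (yA κ A) (TA q κ A) (xA β κ A)

theorem gA_meas (θ q β κ : ℝ) : Measurable (gA θ q β κ) := by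
  have h1 : Measurable (fun A : R3 => (θ, yA κ A, TA q κ A, xA β κ A)) :=
    measurable_const.prodMk ((yA_meas κ).prodMk ((TA_meas q κ).prodMk (xA_meas β κ)))
  exact fr_meas.comp h1

/-- the Jacobian -/
noncomputable def jA (q κ : ℝ) (A : R3) : ℝ := 4 * TA q κ A / (q ^ 3 * κ * yA κ A ^ 7)

/-- for fixed `θ` -/
theorem int_fix {F : Fr → ENNReal} (hF : Measurable F) (θ β : ℝ) {q κ : ℝ} (hq : 0 < q) (hκ : 0 < κ) :
    ∫⁻ y in Ioi (0 : ℝ), ∫⁻ T in Ioi (0 : ℝ), ∫⁻ x, ENNReal.ofReal (T ^ 3) * F (fr θ y T x) =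
      ∫⁻ a in Ioi (0 : ℝ), ∫⁻ b, ∫⁻ c in Iio (b ^ 2 / a), ENNReal.ofReal (jA q κ (a, b, c)) * F (gA θ q β κ (a, b, c)) := by
  obtain ⟨G, hG⟩ : ∃ G : ℝ → ℝ → ℝ → ENNReal, G = fun y a b => ENNReal.ofReal (2 / (q * y ^ 2)) * (ENNReal.ofReal (1 / a) *
    (ENNReal.ofReal ((2 * a / (q * y ^ 2)) ^ 3) * F (fr θ y (2 * a / (q * y ^ 2)) (-(b / a) + β * y)))) := ⟨_, rfl⟩
  have hFf : Measurable (fun p : ℝ × ℝ × ℝ × ℝ => F (fr p.1 p.2.1 p.2.2.1 p.2.2.2)) := hF.comp fr_meas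
  have hGm : Measurable (fun p : ℝ × ℝ × ℝ => G p.1 p.2.1 p.2.2) := by
    have h1 : Measurable (fun p : ℝ × ℝ × ℝ => (θ, p.1, 2 * p.2.1 / (q * p.1 ^ 2), -(p.2.2 / p.2.1) + β * p.1)) := by fun_prop
    have h2 : Measurable (fun p : ℝ × ℝ × ℝ => ENNReal.ofReal (2 / (q * p.1 ^ 2))) := by fun_prop
    have h3 : Measurable (fun p : ℝ × ℝ × ℝ => ENNReal.ofReal (1 / p.2.1)) := by fun_prop
    have h4 : Measurable (fun p : ℝ × ℝ × ℝ => ENNReal.ofReal ((2 * p.2.1 / (q * p.1 ^ 2)) ^ 3)) := by fun_prop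
    rw [hG]
    exact h2.mul (h3.mul (h4.mul (hFf.comp h1)))
  have e1 : ∫⁻ y in Ioi (0 : ℝ), ∫⁻ T in Ioi (0 : ℝ), ∫⁻ x, ENNReal.ofReal (T ^ 3) * F (fr θ y T x) =
      ∫⁻ y in Ioi (0 : ℝ), ∫⁻ a in Ioi (0 : ℝ), ∫⁻ b, G y a b := by
    refine setLIntegral_congr_fun measurableSet_Ioi fun y hy => ?_
    have hy' : 0 < y := hy
    rw [sub1 _ hy'.ne' hq]
    refine setLIntegral_congr_fun measurableSet_Ioi fun a ha => ?_
    have ha' : 0 < a := ha
    rw [sub2 _ ha' (β * y), ← lintegral_const_mul' _ _ ENNReal.ofReal_ne_top, hG]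
  rw [e1]
  have e2 : ∫⁻ y in Ioi (0 : ℝ), ∫⁻ a in Ioi (0 : ℝ), ∫⁻ b, G y a b = ∫⁻ a in Ioi (0 : ℝ), ∫⁻ y in Ioi (0 : ℝ), ∫⁻ b, G y a b := by
    refine lintegral_lintegral_swap (f := fun y a => ∫⁻ b, G y a b) ?_
    have h1 : Measurable (fun p : (ℝ × ℝ) × ℝ => G p.1.1 p.1.2 p.2) :=
      hGm.comp (measurable_fst.fst.prodMk (measurable_fst.snd.prodMk measurable_snd))
    exact h1.lintegral_prod_right'.aemeasurable
  rw [e2]
  refine setLIntegral_congr_fun measurableSet_Ioi fun a ha => ?_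
  have ha' : 0 < a := ha
  have e3 : ∫⁻ y in Ioi (0 : ℝ), ∫⁻ b, G y a b = ∫⁻ b, ∫⁻ y in Ioi (0 : ℝ), G y a b := by
    refine lintegral_lintegral_swap (f := fun y b => G y a b) ?_
    exact (hGm.comp (measurable_fst.prodMk (measurable_const.prodMk measurable_snd))).aemeasurable
  rw [e3]
  refine lintegral_congr fun b => ?_
  rw [sub3 _ hκ ha' b]
  refine setLIntegral_congr_fun measurableSet_Iio fun c hc => ?_
  have hpos := yA_pos hκ ha' hc
  simp only [hG]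
  rw [← mul_assoc, ← mul_assoc, ← mul_assoc, ← ENNReal.ofReal_mul (by positivity), ← ENNReal.ofReal_mul (by positivity),
    ← ENNReal.ofReal_mul (by positivity)]
  congr 2
  unfold jA TA
  simp only
  field_simp
  norm_num

/-- integration over the frames of positive determinant in the coordinates `θ, A₂, A₃, A₄` -/
theorem int_gA {F : Fr → ENNReal} (hF : Measurable F) (h0 : ∀ f, df f ≤ 0 → F f = 0) (q β κ : ℝ → ℝ) (hq : ∀ θ, 0 < q θ) (hκ : ∀ θ, 0 < κ θ) :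
    ∫⁻ f, F f = ∫⁻ θ in Ioc (-π) π, ∫⁻ a in Ioi (0 : ℝ), ∫⁻ b, ∫⁻ c in Iio (b ^ 2 / a),
      ENNReal.ofReal (jA (q θ) (κ θ) (a, b, c)) * F (gA θ (q θ) (β θ) (κ θ) (a, b, c)) := by
  rw [int_fr hF]
  refine lintegral_congr fun θ => ?_
  rw [← int_fix hF θ (β θ) (hq θ) (hκ θ), ← lintegral_indicator measurableSet_Ioi]
  refine lintegral_congr fun y => ?_
  by_cases hy : 0 < y
  · rw [indicator_of_mem (show y ∈ Ioi (0 : ℝ) from hy)]
  · rw [indicator_of_notMem (show y ∉ Ioi (0 : ℝ) from hy), ← nonpos_iff_eq_zero, ← lintegral_zero (μ := volume.restrict (Ioi (0 : ℝ)))]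
    refine setLIntegral_mono' measurableSet_Ioi fun T hT => ?_
    rw [nonpos_iff_eq_zero]
    have h1 : ∀ x, ENNReal.ofReal (T ^ 3) * F (fr θ y T x) = 0 := by
      intro x
      have hT' : 0 < T := hT
      obtain ⟨-, -, -, e4⟩ := fr_coord (θ := θ) (y := y) (T := T) (x := x) hT'
      rw [h0, mul_zero]
      rw [e4]
      have : 0 < T ^ 2 := by positivity
      nlinarith
    simp only [h1, lintegral_zero]

end Pool.Agent.Helper86.AC
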